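import Pool.Agent.Q161.Bool4

/-!
# A sum closed class of growth rate below `1 + √2` with exponentially many indecomposables

The class is `Av(321, 3412, 2341, 51234)`. Its indecomposables of length `n ≥ 2` correspond to binary
words of length `n - 2` without factors `11` and `000` (the excedance words), so their number grows
like `1.3247^n`, and the class itself has growth rate about `2.3353`. We prove the bound
`1/0.42 < 1 + √2` for the growth rate of the class.
-/

set_option autoImplicit false

namespace Pool.Agent.Results.MP_414122_co.BelowOnePlusSqrtTwo

open Q161.Cls Filter Topology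

/-- There is a sum closed permutation class `C` such that the upper growth rate of the set of its
indecomposables is larger than `1`, and such that the growth rate of `C` exists and is smaller than
`1 + √2`. -/
theorem result : ∃ C : Set P, IsClass C ∧ SumClosed C ∧
    1 < limsup (fun n : ℕ => (cnt (ind C) n : ℝ) ^ (1 / (n : ℝ))) atTop ∧
    ∃ g : ℝ, Tendsto (fun n : ℕ => (cnt C n : ℝ) ^ (1 / (n : ℝ))) atTop (𝓝 g) ∧
      g < 1 + Real.sqrt 2 :=
  ⟨C4, isClass_C4, sumClosed_C4, one_lt_limsup, growth_C4⟩

end Pool.Agent.Results.MP_414122_co.BelowOnePlusSqrtTwo
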